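import Pool.Agent.BoltzM.Top.Two
import Pool.Agent.BoltzM.Bg.Final

/-!
Assembly of the modules.
-/

set_option autoImplicit false

namespace Pool.Agent.BoltzM

variable [Dim]

/-- Everything follows from the existence of the profile. -/
theorem main_of_m1 (h1 : M1M) : Stmt.MainM dd := main_of_two h1 bgStmt

end Pool.Agent.BoltzM
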