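import Pool.Agent.BoltzM.En.All
import Pool.Agent.BoltzM.Gain.Gam
import Pool.Agent.BoltzM.Lin.Main
import Pool.Agent.BoltzM.KK.Main
import Pool.Agent.BoltzM.Solver.Final
import Pool.Agent.BoltzM.Solver.Hot
import Pool.Agent.BoltzM.Corr2.Main
import Pool.Agent.BoltzM.Corr.VCut
import Pool.Agent.BoltzM.Alg.Need
import Pool.Agent.BoltzM.Alg.Sob
import Pool.Agent.BoltzM.Coll.Main
import Pool.Agent.BoltzM.Coll.Fin
import Pool.Agent.BoltzM.Coll.One
import Pool.Agent.BoltzM.Pic.LimC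
import Pool.Agent.BoltzM.L1.Main
import Pool.Agent.BoltzM.HC.Op
import Pool.Agent.BoltzM.HE.Vel
import Pool.Agent.BoltzM.HE.Cpl
import Pool.Agent.BoltzM.HE.Gain
import Pool.Agent.BoltzM.HE.Gam
import Pool.Agent.BoltzM.HE.M4
import Pool.Agent.BoltzM.HE.Sob
import Pool.Agent.BoltzM.HE.Tr

/-!
Assembly of the modules, first part.
-/

set_option autoImplicit false

namespace Pool.Agent.BoltzM

variable [Dim]

theorem m5_all : M5Stmt := Lin.m5 Solver.m3h m4h_all

theorem m4H_all : M4HStmt := m4H etH_stmt (trH vhStmt) (gainH vhStmt) (jwH vhStmt)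

theorem picard_of_iter (h : IterStmt) : PicardStmt :=
  picard_of Coll.collStmt h (limit Coll.triOne)

theorem main_of_three (h1 : M1M) (h2 : BgStmt) (h3 : IterStmt) : Stmt.MainM dd :=
  main_of Coll.kerStmt h1 h2 (picard_of_iter h3) L1.l1 Coll.finalStmt

end Pool.Agent.BoltzM
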