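import Pool.Agent.BoltzM.Top.Pre
import Pool.Agent.BoltzM.Pic.Main

/-!
Assembly of the modules, second part.
-/

set_option autoImplicit false

namespace Pool.Agent.BoltzM

variable [Dim]

theorem iter_all : IterStmt :=
  Pic.iterStmt algStmt m4_all Gain.gamStmt sobStmt Corr2.corrStmt KK.kStmt Solver.m3k Solver.m3h
    m5_all Corr.vcut (hStmt vhStmt) vhStmt m4H_all gamH sobH (cpl vhStmt) Solver.m3p

theorem main_of_two (h1 : M1M) (h2 : BgStmt) : Stmt.MainM dd :=
  main_of_three h1 h2 iter_all

end Pool.Agent.BoltzM
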